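import Pool.Agent.H15.SM.BDI
import Pool.Agent.H93.SM.Ev

set_option autoImplicit false
open Pool.Agent.H75.Perc Metric Set Filter Topology Pool.Agent.H7.UC Pool.Agent.H74.Tri
open Pool.Agent.H93.SM Pool.Agent.H15.SM

/-! MP_2e6055, module SM/BD, part PB: the probability that the chain stops in a bad state. -/

namespace Pool.Agent.H1.SM

/-- one coin -/
lemma Pr_ins {α : Type*} [DecidableEq α] {E : Finset α} {s : α} (hs : s ∈ E)
    (F : Finset α → Prop) :
    Pr E F = (Pr (E \ {s}) (fun w => F (insert s w)) + Pr (E \ {s}) F) / 2 := by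
  classical
  have hs1 : ({s} : Finset α) ⊆ E := Finset.singleton_subset_iff.2 hs
  have h1 := Pr_split hs1 (fun w => s ∈ w) (fun w => F (insert s w))
  have h2 := Pr_split hs1 (fun w => s ∉ w) F
  have e1 : Pr ({s} : Finset α) (fun w => s ∈ w) = 1 / 2 := by
    rw [Pr_eq]
    have : (({s} : Finset α).powerset.filter (fun w => s ∈ w)) = {{s}} := by
      ext w
      rw [Finset.mem_filter, Finset.mem_powerset, Finset.mem_singleton,
        Finset.subset_singleton_iff]
      constructor
      · rintro ⟨rfl | rfl, h⟩
        · simp at h
        · rfl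
      · rintro rfl
        exact ⟨Or.inr rfl, Finset.mem_singleton_self s⟩
    rw [this]
    simp
  have e2 : Pr ({s} : Finset α) (fun w => s ∉ w) = 1 / 2 := by
    rw [Pr_eq]
    have : (({s} : Finset α).powerset.filter (fun w => s ∉ w)) = {∅} := by
      ext w
      rw [Finset.mem_filter, Finset.mem_powerset, Finset.mem_singleton,
        Finset.subset_singleton_iff]
      constructor
      · rintro ⟨rfl | rfl, h⟩
        · rfl
        · simp at h
      · rintro rfl
        exact ⟨Or.inl rfl, by simp⟩
    rw [this]
    simp
  have h3 : Pr E F = Pr E (fun ω => s ∈ ω ∩ {s} ∧ F (insert s (ω \ {s}))) +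
      Pr E (fun ω => s ∉ ω ∩ {s} ∧ F (ω \ {s})) := by
    rw [Pr_eq, Pr_eq, Pr_eq, ← add_div]
    congr 1
    rw [← Nat.cast_add, ← Finset.card_union_of_disjoint]
    · congr 2
      ext w
      simp only [Finset.mem_filter, Finset.mem_powerset, Finset.mem_union, Finset.mem_inter,
        Finset.mem_singleton, and_true]
      by_cases hw : s ∈ w
      · have : insert s (w \ {s}) = w := by
          ext x
          simp only [Finset.mem_insert, Finset.mem_sdiff, Finset.mem_singleton]
          by_cases hx : x = s
          · subst hx; simp [hw]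
          · simp [hx]
        rw [this]
        tauto
      · have : w \ {s} = w := by
          ext x
          simp only [Finset.mem_sdiff, Finset.mem_singleton]
          constructor
          · exact fun h => h.1
          · exact fun h => ⟨h, fun hx => hw (hx ▸ h)⟩
        rw [this]
        tauto
    · rw [Finset.disjoint_left]
      intro w hw hw'
      rw [Finset.mem_filter] at hw hw'
      exact hw'.2.1 hw.2.1
  rw [h3, h1, h2, e1, e2]
  ring

variable {U0 : Finset Fc} {col0 : Fc → Bool} {z : Fc} {c : Bool}

theorem Inv.init (hS : St U0 col0) (hz : z ∈ U0) : Inv U0 col0 z c U0 col0 ∅ where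
  st := hS
  sub := subset_rfl
  mem := hz
  disj := by simp
  out := fun _ _ => rfl
  near := fun f h1 h2 => absurd h1 h2
  nbr := by simp
  join := by simp

theorem Inv.step (hT : ECT) (hS : ECS) {U : Finset Fc} {col : Fc → Bool} {V : Finset Fc}
    (h : Inv U0 col0 z c U col V) {s : Fc} (hs : tipF U col = some s) (hz : s ≠ z) (c' : Bool) :
    Inv U0 col0 z c (comp (U \ {s}) z) (Function.update col s c') (insert s V) := by
  obtain ⟨p, hp, rfl⟩ := tipF_spec hs
  set s := ph p with hsdef
  have hsU : s ∈ U := hp.1
  have hsU0 : s ∈ U0 := h.sub hsU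
  have hq : ∃ q, IsExit U col q := by
    rcases hT U col h.st with ⟨M, p', q, h1, h2, _⟩ | ⟨h1, _⟩
    · exact ⟨q, h2⟩
    · exact absurd hp (h1 p)
  obtain ⟨q, hq⟩ := hq
  have hst := (hS U col z p q h.st h.mem hp hq hz).1 c'
  have hcs : comp (U \ {s}) z ⊆ U \ {s} := comp_sub _ _
  have hupd : ∀ f, f ≠ s → Function.update col s c' f = col f := fun f hf =>
    Function.update_of_ne hf _ _
  have hVs : ∀ f ∈ V, f ≠ s := fun f hf he => (h.disj f hf).2 (he ▸ hsU)
  have h0s : ∀ f, f ∉ U0 → f ≠ s := fun f hf he => hf (he ▸ hsU0)
  -- the neighbour of colour `c`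
  have hg : ∃ g, adjF s g ∧ col g = c ∧ (g ∈ V ∨ g ∉ U0) ∧ g ≠ s := by
    cases c
    · refine ⟨pr p, adj_hr p, hp.2.2.2.2, ?_, fun he => hp.2.2.1 (he ▸ hsU)⟩
      by_cases h1 : pr p ∈ U0
      · exact Or.inl (h.near _ h1 hp.2.2.1 _ hsU (adjF_symm (adj_hr p)))
      · exact Or.inr h1
    · refine ⟨pl p, adj_hl p, hp.2.2.2.1, ?_, fun he => hp.2.1 (he ▸ hsU)⟩
      by_cases h1 : pl p ∈ U0
      · exact Or.inl (h.near _ h1 hp.2.1 _ hsU (adjF_symm (adj_hl p)))
      · exact Or.inr h1
  obtain ⟨g0, hg1, hg2, hg3, hg4⟩ := hg
  have hmono : {a | a ∈ V ∧ col a = c} ⊆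
      {a | a ∈ insert s V ∧ Function.update col s c' a = c} := by
    rintro a ⟨ha1, ha2⟩
    exact ⟨Finset.mem_insert_of_mem ha1, by rw [hupd a (hVs a ha1)]; exact ha2⟩
  refine ⟨hst, ?_, ?_, ?_, ?_, ?_, ?_, ?_⟩
  · exact (hcs.trans Finset.sdiff_subset).trans h.sub
  · exact mem_comp_self (Finset.mem_sdiff.2 ⟨h.mem, by
      rw [Finset.mem_singleton]; exact fun he => hz he.symm⟩)
  · intro f hf
    rw [Finset.mem_insert] at hf
    rcases hf with rfl | hf
    · exact ⟨hsU0, fun h1 => by simpa using (Finset.mem_sdiff.1 (hcs h1)).2⟩
    · exact ⟨(h.disj f hf).1, fun h1 => (h.disj f hf).2 (Finset.mem_sdiff.1 (hcs h1)).1⟩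
  · intro f hf
    rw [hupd f (h0s f hf)]
    exact h.out f hf
  · intro f hf hfU g hg hfg
    rw [Finset.mem_insert]
    by_cases hfs : f = s
    · exact Or.inl hfs
    · right
      by_cases hfU' : f ∈ U
      · exact absurd (comp_adj hg (Finset.mem_sdiff.2 ⟨hfU', by
          rw [Finset.mem_singleton]; exact hfs⟩) (adjF_symm hfg)) hfU
      · exact h.near f hf hfU' g (Finset.mem_sdiff.1 (hcs hg)).1 hfg
  · intro f hf
    rw [Finset.mem_insert] at hf
    rcases hf with rfl | hf
    · exact ⟨g0, hg1, by rw [hupd g0 hg4]; exact hg2,
        hg3.imp (fun h1 => Finset.mem_insert_of_mem h1) id⟩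
    · obtain ⟨g, h1, h2, h3⟩ := h.nbr f hf
      have hgs : g ≠ s := by
        rcases h3 with h3 | h3
        · exact hVs g h3
        · exact h0s g h3
      exact ⟨g, h1, by rw [hupd g hgs]; exact h2, h3.imp (fun h1 => Finset.mem_insert_of_mem h1) id⟩
  · intro f hf hfc
    rw [Finset.mem_insert] at hf
    rcases hf with rfl | hf
    · rcases hg3 with h1 | h1
      · obtain ⟨g, h2, x, h3, h4, h5⟩ := h.join g0 h1 hg2
        refine ⟨g, ?_, x, h3, h4, h5⟩
        exact (Jn.single (hmono ⟨h1, hg2⟩) hg1).trans (h2.mono hmono)
      · exact ⟨s, Jn.refl _, g0, h1, hg1, by rw [← h.out g0 h1]; exact hg2⟩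
    · rw [hupd f (hVs f hf)] at hfc
      obtain ⟨g, h2, x, h3, h4, h5⟩ := h.join f hf hfc
      exact ⟨g, h2.mono hmono, x, h3, h4, h5⟩

theorem pb : PB := by
  classical
  intro hT hS U0 col0 z c hS0 hz A hA B hB
  have key : ∀ (n : ℕ) (U : Finset Fc) (col : Fc → Bool) (hi : List Bool) (V : Finset Fc),
      Inv U0 col0 z c U col V →
      EV z (fun U' col' _ => B U' col') (fun U' col' _ => by
        classical exact if B U' col' then 1 else 0) n U col hi ≤
        Pr U (fun w => A (w ∪ V.filter (fun f => col f = c))) := by
    intro n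
    have hend : ∀ (U : Finset Fc) (col : Fc → Bool) (V : Finset Fc),
        Inv U0 col0 z c U col V → (if B U col then (1:ℝ) else 0) ≤
        Pr U (fun w => A (w ∪ V.filter (fun f => col f = c))) := by
      intro U col V hI
      split_ifs with h1
      · rw [← Pr_true U]
        exact Pr_mono fun w _ _ => hA _ _ Finset.subset_union_right (hB U col V hI h1)
      · exact Pr_nonneg _ _
    induction n with
    | zero =>
      intro U col hi V hI
      rw [EV_zero]
      exact hend U col V hI
    | succ n ih =>
      intro U col hi V hI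
      cases hs : tipF U col with
      | none =>
        rw [EV_none hs]
        exact hend U col V hI
      | some s =>
        by_cases h1 : B U col ∨ s = z
        · rw [EV_stop hs h1]
          exact hend U col V hI
        · push Not at h1
          rw [EV_step hs h1.1 h1.2]
          have hsU := tipF_mem hs
          have hI1 := Inv.step hT hS hI hs h1.2 true
          have hI2 := Inv.step hT hS hI hs h1.2 false
          have e1 := ih _ _ (true :: hi) _ hI1
          have e2 := ih _ _ (false :: hi) _ hI2
          have hsV : s ∉ V := fun h => (hI.disj s h).2 hsU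
          have hsub : comp (U \ {s}) z ⊆ U \ {s} := comp_sub _ _
          set T := V.filter (fun f => col f = c) with hTdef
          -- the coloured revealed faces
          have f1 : ∀ b : Bool, (insert s V).filter (fun f => Function.update col s b f = c) =
              if b = c then insert s T else T := by
            intro b
            have hV : V.filter (fun f => Function.update col s b f = c) = T := by
              rw [hTdef]
              apply Finset.filter_congr
              intro f hf
              have hfs : f ≠ s := fun he => hsV (he ▸ hf)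
              rw [Function.update_of_ne hfs]
            rw [Finset.filter_insert, Function.update_self, hV]
          have hIncT : ∀ T' : Finset Fc, Inc (fun w => A (w ∪ T')) := by
            intro T' w w' hw hAw
            exact hA _ _ (Finset.union_subset_union_left hw) hAw
          have g1 : ∀ b : Bool, Pr (comp (U \ {s}) z) (fun w => A (w ∪
              (insert s V).filter (fun f => Function.update col s b f = c))) ≤
              Pr (U \ {s}) (fun w => A (w ∪ if b = c then insert s T else T)) := by
            intro b
            rw [f1 b]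
            exact Pr_inc hsub (hIncT _)
          have k1 : Pr (U \ {s}) (fun w => A (w ∪ insert s T)) =
              Pr (U \ {s}) (fun w => A (insert s w ∪ T)) := by
            apply Pr_congr
            intro w _
            rw [Finset.union_insert, Finset.insert_union]
          have k2 := Pr_ins hsU (fun w => A (w ∪ T))
          have g2 := g1 true
          have g3 := g1 false
          rw [k2]
          cases c
          · simp only [if_true, if_false, Bool.true_eq_false, Bool.false_eq_true] at g2 g3
            rw [k1] at g3
            linarith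
          · simp only [if_true, if_false, Bool.true_eq_false, Bool.false_eq_true] at g2 g3
            rw [k1] at g2
            linarith
  have h := key U0.card U0 col0 [] ∅ (Inv.init hS0 hz)
  refine h.trans (le_of_eq ?_)
  apply Pr_congr
  intro w _
  rw [Finset.filter_empty, Finset.union_empty]

end Pool.Agent.H1.SM
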